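import Pool.Agent.Y242.LW.Stm

/-!
# Project LW (helper242), job K: compactness of the set of data
-/

open Set Filter Topology Complex Metric

noncomputable section

namespace Pool.Agent.Y367.LW

open LW242

lemma ulim {E : Type*} [NormedAddCommGroup E] [ProperSpace E] (a : ℕ → E) (B : ℝ)
    (h : ∀ᶠ k in (hyperfilter ℕ : Filter ℕ), ‖a k‖ ≤ B) :
    ∃ y, Tendsto a (hyperfilter ℕ) (𝓝 y) := by
  have h1 : closedBall (0 : E) B ∈ ((hyperfilter ℕ).map a) := by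
    rw [Ultrafilter.mem_map]
    filter_upwards [h] with k hk
    simpa using hk
  obtain ⟨y, -, hy⟩ := (isCompact_closedBall (0 : E) B).ultrafilter_le_nhds' _ h1
  exact ⟨y, hy⟩

lemma im_pos_of {f : ℕ → ℂ → ℂ} {f' : ℂ → ℂ} {c : ℝ} (z : ℂ)
    (h : ∀ k, c * z.im ≤ (f k z).im) (hl : Tendsto (fun k => f k z) (hyperfilter ℕ) (𝓝 (f' z))) :
    c * z.im ≤ (f' z).im :=
  ge_of_tendsto ((Complex.continuous_im.tendsto _).comp hl) (Eventually.of_forall h)

lemma locbdd {f : ℕ → ℂ → ℂ} {C x0 : ℝ} (hC : 0 < C)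
    (h : ∀ k, ∀ z ∈ Hp, ‖f k z - (x0 : ℂ)‖ ≤ C * (‖z - (x0 : ℂ)‖ ^ 2 / z.im)) :
    ∀ z ∈ Hp, ∃ r > 0, ∃ B : ℝ, ∀ k, ∀ w ∈ ball z r, w ∈ Hp → ‖f k w‖ ≤ B := by
  intro z hz
  have hz' : 0 < z.im := hz
  refine ⟨z.im / 2, by positivity,
    ‖(x0 : ℂ)‖ + C * ((‖z - (x0 : ℂ)‖ + z.im / 2) ^ 2 / (z.im / 2)), ?_⟩
  intro k w hw hwH
  have h1 : ‖w - z‖ < z.im / 2 := by simpa [dist_eq_norm] using hw
  have h2 : |(w - z).im| ≤ ‖w - z‖ := Complex.abs_im_le_norm _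
  have h3 : z.im / 2 ≤ w.im := by
    have := (abs_le.1 h2).1
    simp only [Complex.sub_im] at this
    linarith
  have h4 : ‖w - (x0 : ℂ)‖ ≤ ‖z - (x0 : ℂ)‖ + z.im / 2 := by
    calc ‖w - (x0 : ℂ)‖ = ‖(w - z) + (z - x0)‖ := by ring_nf
      _ ≤ ‖w - z‖ + ‖z - (x0 : ℂ)‖ := norm_add_le _ _
      _ ≤ _ := by linarith
  have h5 : ‖w - (x0 : ℂ)‖ ^ 2 / w.im ≤ (‖z - (x0 : ℂ)‖ + z.im / 2) ^ 2 / (z.im / 2) := by
    apply div_le_div₀ (by positivity) _ (by positivity) h3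
    exact pow_le_pow_left₀ (norm_nonneg _) h4 2
  calc ‖f k w‖ = ‖(x0 : ℂ) + (f k w - x0)‖ := by ring_nf
    _ ≤ ‖(x0 : ℂ)‖ + ‖f k w - (x0 : ℂ)‖ := norm_add_le _ _
    _ ≤ ‖(x0 : ℂ)‖ + C * (‖w - (x0 : ℂ)‖ ^ 2 / w.im) := by
        have := h k w hwH
        linarith
    _ ≤ _ := by
        have := mul_le_mul_of_nonneg_left h5 hC.le
        linarith

lemma not_const {f' : ℂ → ℂ} {c : ℝ} (hc : 1 ≤ c) (h : ∀ z ∈ Hp, c * z.im ≤ (f' z).im) (p : ℂ) :
    ¬ ∀ z ∈ Hp, f' z = p := by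
  intro h0
  have hpos : 0 < |p.im| + 1 := by positivity
  set z : ℂ := ((|p.im| + 1 : ℝ) : ℂ) * I with hz
  have him : z.im = |p.im| + 1 := by simp [hz]
  have hzH : z ∈ Hp := by
    show 0 < z.im
    rw [him]; exact hpos
  have h1 := h z hzH
  rw [h0 z hzH, him] at h1
  have h2 : |p.im| + 1 ≤ c * (|p.im| + 1) := by
    nlinarith
  have h3 := le_abs_self p.im
  linarith

lemma jul_closed {f : ℕ → ℂ → ℂ} {f' : ℂ → ℂ} {a b : ℕ → ℝ} {a' b' C : ℝ}
    (hf : ∀ z ∈ Hp, Tendsto (fun k => f k z) (hyperfilter ℕ) (𝓝 (f' z)))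
    (ha : Tendsto a (hyperfilter ℕ) (𝓝 a')) (hb : Tendsto b (hyperfilter ℕ) (𝓝 b'))
    (h : ∀ k, Jul (f k) (a k) (b k) C) : Jul f' a' b' C := by
  intro z hz
  have hfz := hf z hz
  have hac : Tendsto (fun k => ((a k : ℝ) : ℂ)) (hyperfilter ℕ) (𝓝 (a' : ℂ)) :=
    (Complex.continuous_ofReal.tendsto _).comp ha
  have hbc : Tendsto (fun k => ((b k : ℝ) : ℂ)) (hyperfilter ℕ) (𝓝 (b' : ℂ)) :=
    (Complex.continuous_ofReal.tendsto _).comp hb
  have h1 : Tendsto (fun k => z.im * ‖f k z - ((b k : ℝ) : ℂ)‖ ^ 2) (hyperfilter ℕ)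
      (𝓝 (z.im * ‖f' z - (b' : ℂ)‖ ^ 2)) :=
    (((hfz.sub hbc).norm).pow 2).const_mul _
  have h2 : Tendsto (fun k => C * (f k z).im * ‖z - ((a k : ℝ) : ℂ)‖ ^ 2) (hyperfilter ℕ)
      (𝓝 (C * (f' z).im * ‖z - (a' : ℂ)‖ ^ 2)) :=
    ((((Complex.continuous_im.tendsto _).comp hfz).const_mul C).mul
      (((tendsto_const_nhds.sub hac).norm).pow 2))
  exact le_of_tendsto_of_tendsto h1 h2 (Eventually.of_forall (fun k => h k z hz))

theorem t (hNF : S_NF) (hSP : S_SP) (hJ : S_JBD) (hO : S_O) : S_K := by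
  intro n φ c x A hB f g ζ hD
  have hc := hB.one_le
  have hfM : ∀ k, MapsTo (f k) Hp Hp := fun k => (hD k).f_uni.2.1
  have hgM : ∀ k, MapsTo (g k) Hp Hp := fun k => (hD k).g_uni.2.1
  have hA0 : 0 < A 0 := (hJ _ _ _ _ (hgM 0) ((hD 0).g_jul 0 (Nat.zero_le n))).1
  have hgb : ∀ k, ∀ z ∈ Hp, ‖g k z - (x 0 : ℂ)‖ ≤ A 0 * (‖z - (x 0 : ℂ)‖ ^ 2 / z.im) := by
    intro k z hz
    have := (hJ _ _ _ _ (hgM k) ((hD k).g_jul 0 (Nat.zero_le n))).2.1 z hz
    rwa [(hD k).zero] at this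
  have hfb : ∀ k, ∀ z ∈ Hp, ‖f k z - (x 0 : ℂ)‖ ≤ A 0 * (‖z - (x 0 : ℂ)‖ ^ 2 / z.im) := by
    intro k z hz
    have := (hJ _ _ _ _ (hfM k) ((hD k).f_jul 0 (Nat.zero_le n))).2.1 z hz
    rwa [(hD k).zero] at this
  obtain ⟨f', hf'd, hf'l, -, hf'm, hf'i, hf'o⟩ :=
    hNF f (fun k => (hD k).f_uni.1) (locbdd hA0 hfb)
  obtain ⟨g', hg'd, hg'l, hg'D, hg'm, hg'i, hg'o⟩ :=
    hNF g (fun k => (hD k).g_uni.1) (locbdd hA0 hgb)
  have hI : (I : ℂ) ∈ Hp := by show 0 < (I : ℂ).im; simp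
  -- limits of the marked points
  have hζ : ∀ j, ∃ y : ℝ, j ≤ n → Tendsto (fun k => ζ k j) (hyperfilter ℕ) (𝓝 y) := by
    intro j
    by_cases hj : j ≤ n
    · have hb : ∀ k, ‖ζ k j‖ ≤ A j * (‖I - (x j : ℂ)‖ ^ 2 / (I : ℂ).im)
          + (‖(x 0 : ℂ)‖ + A 0 * (‖I - (x 0 : ℂ)‖ ^ 2 / (I : ℂ).im)) := by
        intro k
        have h1 := (hJ _ _ _ _ (hgM k) ((hD k).g_jul j hj)).2.1 I hI
        have h2 := hgb k I hI
        have h3 : ‖((ζ k j : ℝ) : ℂ)‖ ≤ ‖g k I - ((ζ k j : ℝ) : ℂ)‖ + ‖g k I‖ := by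
          calc ‖((ζ k j : ℝ) : ℂ)‖ = ‖g k I - (g k I - ((ζ k j : ℝ) : ℂ))‖ := by ring_nf
            _ ≤ ‖g k I‖ + ‖g k I - ((ζ k j : ℝ) : ℂ)‖ := norm_sub_le _ _
            _ = _ := by ring
        have h4 : ‖g k I‖ ≤ ‖(x 0 : ℂ)‖ + ‖g k I - (x 0 : ℂ)‖ := by
          calc ‖g k I‖ = ‖(x 0 : ℂ) + (g k I - x 0)‖ := by ring_nf
            _ ≤ _ := norm_add_le _ _
        have h5 : ‖ζ k j‖ = ‖((ζ k j : ℝ) : ℂ)‖ := (Complex.norm_real _).symm
        rw [h5]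
        linarith
      obtain ⟨y, hy⟩ := ulim (fun k => ζ k j) _ (Eventually.of_forall hb)
      exact ⟨y, fun _ => hy⟩
    · exact ⟨0, fun h => absurd h hj⟩
  choose ζ' hζ' using hζ
  have hf'im : ∀ z ∈ Hp, 1 * z.im ≤ (f' z).im := fun z hz =>
    im_pos_of z (fun k => by simpa using (hD k).f_im z hz) (hf'l z hz)
  have hg'im : ∀ z ∈ Hp, c * z.im ≤ (g' z).im := fun z hz =>
    im_pos_of z (fun k => (hD k).g_im z hz) (hg'l z hz)
  have hf'M : MapsTo f' Hp Hp := by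
    intro z hz
    have h1 := hf'im z hz
    have h2 : 0 < z.im := hz
    show 0 < (f' z).im
    linarith
  have hg'M : MapsTo g' Hp Hp := by
    intro z hz
    have h1 := hg'im z hz
    have h2 : 0 < z.im := hz
    show 0 < (g' z).im
    nlinarith
  have hf'inj : InjOn f' Hp := by
    rcases hf'i (fun k => (hD k).f_uni.2.2) with h | ⟨p, hp⟩
    · exact h
    · exact absurd hp (not_const le_rfl hf'im p)
  have hg'inj : InjOn g' Hp := by
    rcases hg'i (fun k => (hD k).g_uni.2.2) with h | ⟨p, hp⟩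
    · exact h
    · exact absurd hp (not_const hc hg'im p)
  refine ⟨f', g', ζ', ?_, fun j hj => hζ' j hj, ?_, ?_, ?_⟩
  · refine ⟨⟨hf'd, hf'M, hf'inj⟩, ⟨hg'd, hg'M, hg'inj⟩, ?_, ?_, hg'im, ?_, ?_, ?_⟩
    · intro z hz
      have h1 := hf'm (g' z) (hg'M hz) (fun k => g k z) (hg'l z hz)
      have h2 : (fun k => f k (g k z)) = fun _ => φ z := by
        funext k; exact (hD k).comp z hz
      rw [h2] at h1
      exact tendsto_nhds_unique h1 tendsto_const_nhds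
    · intro z hz
      simpa using hf'im z hz
    · have h1 := hζ' 0 (Nat.zero_le n)
      have h2 : (fun k => ζ k 0) = fun _ => x 0 := by
        funext k; exact (hD k).zero
      rw [h2] at h1
      exact (tendsto_nhds_unique tendsto_const_nhds h1).symm
    · intro j hj
      exact jul_closed hg'l tendsto_const_nhds (hζ' j hj) (fun k => (hD k).g_jul j hj)
    · intro j hj
      exact jul_closed hf'l (hζ' j hj) tendsto_const_nhds (fun k => (hD k).f_jul j hj)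
  · have h1 : Tendsto (fun k => ‖deriv (g k) I‖) (hyperfilter ℕ) (𝓝 ‖deriv g' I‖) :=
      (hg'D I hI).norm
    have h2 : Tendsto (fun k => (g k I).im) (hyperfilter ℕ) (𝓝 (g' I).im) :=
      (Complex.continuous_im.tendsto _).comp (hg'l I hI)
    exact h1.div h2 (ne_of_gt (hg'M hI))
  · intro p _ hp
    rcases hf'o p hp with h | h
    · exact h
    · exact absurd h (not_const le_rfl hf'im p)
  · intro f₁ g₁ ζ₁ hD₁ hsub
    rintro p ⟨w, hw, rfl⟩
    have hw' : 0 < w.im := hw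
    have hg₁I : 0 < (g₁ I).im := hD₁.g_uni.2.1 hI
    -- the points z_k
    have hex : ∀ k, ∃ z : ℂ, f₁ '' Hp ⊆ f k '' Hp → (f k z = f₁ w ∧ w.im ≤ z.im ∧
        ‖z - g k I‖ ^ 2 * w.im * (g₁ I).im ≤ ‖w - g₁ I‖ ^ 2 * z.im * (g k I).im) := by
      intro k
      by_cases hk : f₁ '' Hp ⊆ f k '' Hp
      · obtain ⟨h, hU, h1, h2, h3, -⟩ := hO n φ c x A hB f₁ g₁ ζ₁ (f k) (g k) (ζ k) hD₁ (hD k) hk
        refine ⟨h w, fun _ => ⟨h1 w hw, h3 w hw, ?_⟩⟩
        have h4 := hSP h hU.1 (fun z hz => le_of_lt (hU.2.1 hz)) w hw (g₁ I) hg₁I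
        rwa [h2 I hI] at h4
      · exact ⟨0, fun h => absurd h hk⟩
    choose zz hzz using hex
    set Q : ℝ := ‖(x 0 : ℂ)‖ + A 0 * (‖I - (x 0 : ℂ)‖ ^ 2 / (I : ℂ).im) + 1 with hQ
    have hQb : ∀ k, ‖g k I‖ ≤ Q := by
      intro k
      have h2 := hgb k I hI
      have h4 : ‖g k I‖ ≤ ‖(x 0 : ℂ)‖ + ‖g k I - (x 0 : ℂ)‖ := by
        calc ‖g k I‖ = ‖(x 0 : ℂ) + (g k I - x 0)‖ := by ring_nf
          _ ≤ _ := norm_add_le _ _
      linarith
    have hQ0 : 0 < Q := lt_of_lt_of_le (by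
      have : 0 < (g 0 I).im := hgM 0 hI
      have h5 : (g 0 I).im ≤ ‖g 0 I‖ := le_trans (le_abs_self _) (Complex.abs_im_le_norm _)
      linarith) (hQb 0)
    set a : ℝ := w.im * (g₁ I).im with ha
    have ha0 : 0 < a := mul_pos hw' hg₁I
    set b : ℝ := ‖w - g₁ I‖ ^ 2 with hb
    have hb0 : 0 ≤ b := by positivity
    have hbd : ∀ᶠ k in (hyperfilter ℕ : Filter ℕ), ‖zz k‖ ≤ (Q + 2 * b * Q / a) + Q := by
      filter_upwards [hsub] with k hk
      obtain ⟨-, h2, h3⟩ := hzz k hk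
      set D : ℝ := ‖zz k - g k I‖ with hDd
      have hD0 : 0 ≤ D := norm_nonneg _
      have h4 : ‖zz k‖ ≤ D + Q := by
        calc ‖zz k‖ = ‖(zz k - g k I) + g k I‖ := by ring_nf
          _ ≤ ‖zz k - g k I‖ + ‖g k I‖ := norm_add_le _ _
          _ ≤ _ := by have := hQb k; linarith
      have h5 : (zz k).im ≤ D + Q :=
        le_trans (le_trans (le_abs_self _) (Complex.abs_im_le_norm _)) h4
      have h6 : (g k I).im ≤ Q :=
        le_trans (le_trans (le_abs_self _) (Complex.abs_im_le_norm _)) (hQb k)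
      have h6' : 0 < (g k I).im := hgM k hI
      have h5' : 0 ≤ (zz k).im := by linarith
      have h7 : D ^ 2 * a ≤ b * ((D + Q) * Q) := by
        calc D ^ 2 * a = D ^ 2 * w.im * (g₁ I).im := by rw [ha]; ring
          _ ≤ b * (zz k).im * (g k I).im := h3
          _ = b * ((zz k).im * (g k I).im) := by ring
          _ ≤ b * ((D + Q) * Q) := by
              apply mul_le_mul_of_nonneg_left _ hb0
              exact mul_le_mul h5 h6 h6'.le (by linarith)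
      have h8 : D ≤ Q + 2 * b * Q / a := by
        by_cases hDQ : D ≤ Q
        · have : 0 ≤ 2 * b * Q / a := by positivity
          linarith
        · push Not at hDQ
          have hDpos : 0 < D := lt_trans hQ0 hDQ
          have h9 : D * a ≤ 2 * b * Q := by
            have h10 : D * (D * a) ≤ D * (2 * b * Q) := by
              calc D * (D * a) = D ^ 2 * a := by ring
                _ ≤ b * ((D + Q) * Q) := h7
                _ ≤ b * ((D + D) * Q) := by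
                    apply mul_le_mul_of_nonneg_left _ hb0
                    apply mul_le_mul_of_nonneg_right _ hQ0.le
                    linarith
                _ = D * (2 * b * Q) := by ring
            exact le_of_mul_le_mul_left h10 hDpos
          have h11 : D ≤ 2 * b * Q / a := by
            rw [le_div_iff₀ ha0]; exact h9
          linarith
      linarith
    obtain ⟨z, hz⟩ := ulim zz _ hbd
    have hzim : w.im ≤ z.im := by
      apply ge_of_tendsto ((Complex.continuous_im.tendsto _).comp hz)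
      filter_upwards [hsub] with k hk
      exact (hzz k hk).2.1
    have hzH : z ∈ Hp := by
      show 0 < z.im
      linarith
    refine ⟨z, hzH, ?_⟩
    have h1 := hf'm z hzH zz hz
    have h2 : Tendsto (fun k => f k (zz k)) (hyperfilter ℕ) (𝓝 (f₁ w)) := by
      apply Tendsto.congr' _ tendsto_const_nhds
      filter_upwards [hsub] with k hk
      exact (hzz k hk).1.symm
    exact tendsto_nhds_unique h1 h2

end Pool.Agent.Y367.LW
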