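import Pool.Agent.Y242.LW.Stm
import Pool.Agent.Helper202.Univ

/-!
# Project LW (helper242), job R: normalised factorisations exist
-/

open Set Filter Topology Complex Metric

noncomputable section

namespace Pool.Agent.Y367.LW.R

open LW242

lemma isOpen_Hp : IsOpen Hp := isOpen_lt continuous_const Complex.continuous_im

lemma I_mem : (I : ℂ) ∈ Hp := by show 0 < (I : ℂ).im; simp

lemma norm_sq_conj (a q : ℂ) :
    ‖a - starRingEnd ℂ q‖ ^ 2 = ‖a - q‖ ^ 2 + 4 * a.im * q.im := by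
  rw [← Complex.normSq_eq_norm_sq, ← Complex.normSq_eq_norm_sq]
  simp only [Complex.normSq_apply, Complex.sub_re, Complex.sub_im, Complex.conj_re,
    Complex.conj_im]
  ring

lemma norm_sq_add_I (z : ℂ) : ‖z + I‖ ^ 2 = ‖z - I‖ ^ 2 + 4 * z.im := by
  have h := norm_sq_conj z I
  simpa using h

lemma d_bound (hSP : S_SP) {h : ℂ → ℂ} (hd : DifferentiableOn ℂ h Hp) (hm : MapsTo h Hp Hp) :
    ∃ K > 0, ∀ z ∈ Hp, z.im * ‖h z + I‖ ^ 2 ≤ K * (h z).im * ‖z + I‖ ^ 2 := by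
  set q := h I with hq
  have hq0 : 0 < q.im := hm I_mem
  set κ : ℝ := 1 + ‖starRingEnd ℂ q + I‖ / q.im with hκ
  have hκ1 : 1 ≤ κ := by
    have : 0 ≤ ‖starRingEnd ℂ q + I‖ / q.im := by positivity
    linarith
  refine ⟨κ ^ 2 * q.im, by positivity, fun z hz => ?_⟩
  have hz0 : 0 < z.im := hz
  have hhz : 0 < (h z).im := hm hz
  have h1 := hSP h hd (fun z hz => (hm hz).le) z hz I I_mem
  rw [← hq] at h1
  simp only [Complex.I_im, mul_one] at h1
  have h2 : z.im * ‖h z - starRingEnd ℂ q‖ ^ 2 ≤ ‖z + I‖ ^ 2 * (h z).im * q.im := by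
    rw [norm_sq_conj, norm_sq_add_I]
    nlinarith [h1]
  have h3 : q.im ≤ ‖h z - starRingEnd ℂ q‖ := by
    have h4 : |(h z - starRingEnd ℂ q).im| ≤ ‖h z - starRingEnd ℂ q‖ := Complex.abs_im_le_norm _
    have h5 : (h z - starRingEnd ℂ q).im = (h z).im + q.im := by simp
    rw [h5, abs_of_pos (by linarith)] at h4
    linarith
  have h6 : ‖h z + I‖ ≤ κ * ‖h z - starRingEnd ℂ q‖ := by
    have h7 : ‖h z + I‖ ≤ ‖h z - starRingEnd ℂ q‖ + ‖starRingEnd ℂ q + I‖ := by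
      calc ‖h z + I‖ = ‖(h z - starRingEnd ℂ q) + (starRingEnd ℂ q + I)‖ := by ring_nf
        _ ≤ _ := norm_add_le _ _
    have h8 : ‖starRingEnd ℂ q + I‖ ≤
        ‖starRingEnd ℂ q + I‖ / q.im * ‖h z - starRingEnd ℂ q‖ := by
      rw [div_mul_eq_mul_div, le_div_iff₀ hq0]
      exact mul_le_mul_of_nonneg_left h3 (norm_nonneg _)
    rw [hκ]
    linarith
  have h9 : ‖h z + I‖ ^ 2 ≤ κ ^ 2 * ‖h z - starRingEnd ℂ q‖ ^ 2 := by
    rw [← mul_pow]
    exact pow_le_pow_left₀ (norm_nonneg _) h6 2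
  calc z.im * ‖h z + I‖ ^ 2 ≤ z.im * (κ ^ 2 * ‖h z - starRingEnd ℂ q‖ ^ 2) :=
        mul_le_mul_of_nonneg_left h9 hz0.le
    _ = κ ^ 2 * (z.im * ‖h z - starRingEnd ℂ q‖ ^ 2) := by ring
    _ ≤ κ ^ 2 * (‖z + I‖ ^ 2 * (h z).im * q.im) := by
        apply mul_le_mul_of_nonneg_left h2 (by positivity)
    _ = κ ^ 2 * q.im * (h z).im * ‖z + I‖ ^ 2 := by ring

lemma jul_mono {f : ℂ → ℂ} {x ξ C C' : ℝ} (hf : ∀ z ∈ Hp, 0 ≤ (f z).im) (h : Jul f x ξ C)
    (hC : C ≤ C') : Jul f x ξ C' := by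
  intro z hz
  refine (h z hz).trans ?_
  have := mul_le_mul_of_nonneg_right hC (hf z hz)
  exact mul_le_mul_of_nonneg_right this (by positivity)

/-- composition with an automorphism -/
lemma uni_comp {F m : ℂ → ℂ} (hF : Uni F) (hm : Uni m) : Uni (fun z => F (m z)) :=
  ⟨hF.1.comp hm.1 hm.2.1, fun _ hz => hF.2.1 (hm.2.1 hz),
    fun _ ha _ hb hab => hm.2.2 ha hb (hF.2.2 (hm.2.1 ha) (hm.2.1 hb) hab)⟩

lemma image_comp_surj {F m : ℂ → ℂ} (hm : MapsTo m Hp Hp) (hs : ∀ w ∈ Hp, ∃ z ∈ Hp, m z = w) :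
    (fun z => F (m z)) '' Hp = F '' Hp := by
  apply Subset.antisymm
  · rintro _ ⟨z, hz, rfl⟩
    exact ⟨m z, hm hz, rfl⟩
  · rintro _ ⟨w, hw, rfl⟩
    obtain ⟨z, hz, rfl⟩ := hs w hw
    exact ⟨z, hz, rfl⟩

lemma phi_ratio {φ : ℂ → ℂ} {c : ℝ} (hc : 1 ≤ c)
    (hl : Tendsto (fun y : ℝ => φ (y * I) / (y * I)) atTop (𝓝 (c : ℂ))) :
    Tendsto (fun y : ℝ => y * (φ (y * I)).im / ‖φ (y * I)‖ ^ 2) atTop (𝓝 (1 / c)) := by
  have hc0 : (0 : ℝ) < c := by linarith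
  have h1 : Tendsto (fun y : ℝ => (φ (y * I) / (y * I)).re / ‖φ (y * I) / (y * I)‖ ^ 2) atTop
      (𝓝 ((c : ℂ).re / ‖(c : ℂ)‖ ^ 2)) := by
    apply Tendsto.div
    · exact (Complex.continuous_re.tendsto _).comp hl
    · exact (hl.norm).pow 2
    · have : ‖(c : ℂ)‖ = c := by simp [abs_of_pos hc0]
      rw [this]; positivity
  have h2 : (c : ℂ).re / ‖(c : ℂ)‖ ^ 2 = 1 / c := by
    have : ‖(c : ℂ)‖ = c := by simp [abs_of_pos hc0]
    rw [this]
    simp only [Complex.ofReal_re]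
    field_simp
  rw [h2] at h1
  refine h1.congr' ?_
  filter_upwards [eventually_gt_atTop (0 : ℝ)] with y hy
  set q := φ (y * I) / (y * I) with hq
  have hyI : ((y : ℂ) * I) ≠ 0 := by
    apply mul_ne_zero _ Complex.I_ne_zero
    exact_mod_cast hy.ne'
  have h3 : φ (y * I) = q * (y * I) := (div_mul_cancel₀ _ hyI).symm
  have h4 : (φ (y * I)).im = y * q.re := by
    rw [h3]; simp; ring
  have h5 : ‖φ (y * I)‖ = ‖q‖ * y := by
    rw [h3, norm_mul, norm_mul]; simp [abs_of_pos hy]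
  rw [h4, h5]
  by_cases hq0 : ‖q‖ = 0
  · rw [hq0]; simp
  · field_simp

theorem core (hJI : S_JINF) (hS : S_SPLIT) {n : ℕ} {φ : ℂ → ℂ} {c : ℝ} {x A : ℕ → ℝ}
    (hB : Base n φ c x A) {f1 g1 : ℂ → ℂ} (hf : Uni f1) (hg : Uni g1)
    (hfg : ∀ z ∈ Hp, f1 (g1 z) = φ z) (y : ℕ → ℝ) (hy0 : ∀ k, 0 < y k)
    (hy : Tendsto y atTop atTop)
    (hgi : Tendsto (fun k => ‖g1 ((y k : ℂ) * I)‖) atTop atTop) {m M : ℝ} (hm : 0 < m)
    (hr : ∀ᶠ k in atTop, m ≤ y k * (g1 ((y k : ℂ) * I)).im / ‖g1 ((y k : ℂ) * I)‖ ^ 2 ∧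
      y k * (g1 ((y k : ℂ) * I)).im / ‖g1 ((y k : ℂ) * I)‖ ^ 2 ≤ M) :
    ∃ (f g : ℂ → ℂ) (ζ : ℕ → ℝ), Dat n φ c x A f g ζ ∧ f '' Hp = f1 '' Hp := by
  have hc := hB.one_le
  have hc0 : (0 : ℝ) < c := by linarith
  obtain ⟨r, hrI, ψ, hψ, hψr⟩ := (isCompact_Icc (a := m) (b := M)).tendsto_subseq'
    (x := fun k => y k * (g1 ((y k : ℂ) * I)).im / ‖g1 ((y k : ℂ) * I)‖ ^ 2)
    (hr.mono (fun k hk => (⟨hk.1, hk.2⟩ : _ ∈ Icc m M))).frequently
  have hr0 : 0 < r := lt_of_lt_of_le hm hrI.1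
  have hyψ : Tendsto (fun k => y (ψ k)) atTop atTop := hy.comp hψ.tendsto_atTop
  have hmem : ∀ k, ((y (ψ k) : ℂ) * I) ∈ Hp := by
    intro k
    show 0 < ((y (ψ k) : ℂ) * I).im
    simpa using hy0 (ψ k)
  have him : ∀ k, ((y (ψ k) : ℂ) * I).im = y (ψ k) := by intro k; simp
  have hno : ∀ k, ‖((y (ψ k) : ℂ) * I)‖ = y (ψ k) := by
    intro k; simp [abs_of_pos (hy0 (ψ k))]
  have hgψ : Tendsto (fun k => ‖g1 ((y (ψ k) : ℂ) * I)‖) atTop atTop :=
    hgi.comp hψ.tendsto_atTop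
  -- g1 at infinity
  have hG := hJI g1 r (fun k => (y (ψ k) : ℂ) * I) hg.1 (fun z hz => (hg.2.1 hz).le) hmem
    (by simpa only [hno] using hyψ) hgψ
    (by
      refine hψr.congr (fun k => ?_)
      simp only [Function.comp_apply, him, hno]
      have := (hy0 (ψ k)).ne'
      field_simp)
  -- f1 at infinity
  have hφn : Tendsto (fun k => ‖f1 (g1 ((y (ψ k) : ℂ) * I))‖) atTop atTop := by
    refine tendsto_atTop_mono (fun k => ?_) hyψ
    rw [hfg _ (hmem k)]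
    have h1 := hB.im_ge _ (hmem k)
    rw [him] at h1
    have h2 : (φ ((y (ψ k) : ℂ) * I)).im ≤ ‖φ ((y (ψ k) : ℂ) * I)‖ :=
      le_trans (le_abs_self _) (Complex.abs_im_le_norm _)
    have h3 := hy0 (ψ k)
    nlinarith
  have hF := hJI f1 (1 / c / r) (fun k => g1 ((y (ψ k) : ℂ) * I)) hf.1
    (fun z hz => (hf.2.1 hz).le) (fun k => hg.2.1 (hmem k)) hgψ hφn
    (by
      have h1 : Tendsto (fun k => y (ψ k) * (φ ((y (ψ k) : ℂ) * I)).im /
          ‖φ ((y (ψ k) : ℂ) * I)‖ ^ 2) atTop (𝓝 (1 / c)) := (phi_ratio hc hB.lim).comp hyψ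
      refine (h1.div hψr hr0.ne').congr (fun k => ?_)
      show (y (ψ k) * (φ ((y (ψ k) : ℂ) * I)).im / ‖φ ((y (ψ k) : ℂ) * I)‖ ^ 2) /
        (y (ψ k) * (g1 ((y (ψ k) : ℂ) * I)).im / ‖g1 ((y (ψ k) : ℂ) * I)‖ ^ 2) = _
      rw [hfg _ (hmem k)]
      have h2 := (hy0 (ψ k)).ne'
      have h3 : ((g1 ((y (ψ k) : ℂ) * I)).im) ≠ 0 := (hg.2.1 (hmem k)).ne'
      have h4 : ‖g1 ((y (ψ k) : ℂ) * I)‖ ≠ 0 := by
        intro h
        rw [norm_eq_zero] at h
        rw [h] at h3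
        simp at h3
      by_cases h5 : ‖φ ((y (ψ k) : ℂ) * I)‖ = 0
      · rw [h5]; simp
      · field_simp)
  set a : ℝ := c * r with ha
  have ha0 : 0 < a := mul_pos hc0 hr0
  have hac : (a : ℂ) ≠ 0 := by exact_mod_cast ha0.ne'
  have hf1 : ∀ z ∈ Hp, a * z.im ≤ (f1 z).im := by
    intro z hz
    have h1 := hF z hz
    have h2 : 1 / c / r * (f1 z).im = (f1 z).im / a := by rw [ha]; field_simp
    rw [h2, le_div_iff₀ ha0] at h1
    linarith
  -- scaled maps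
  set f2 : ℂ → ℂ := fun z => f1 (z / a) with hf2
  set g2 : ℂ → ℂ := fun z => a * g1 z with hg2
  have hsim : ∀ z : ℂ, (z / (a : ℂ)).im = z.im / a := by
    intro z; rw [Complex.div_ofReal_im]
  have hsc : Uni (fun z : ℂ => z / a) := by
    refine ⟨(differentiable_id.div_const _).differentiableOn, ?_, ?_⟩
    · intro z hz
      show 0 < (z / (a : ℂ)).im
      rw [hsim]
      exact div_pos hz ha0
    · intro z _ w _ h
      simpa [div_left_inj' hac] using h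
  have hsc' : Uni (fun z : ℂ => (a : ℂ) * z) := by
    refine ⟨(differentiable_id.const_mul _).differentiableOn, ?_, ?_⟩
    · intro z hz
      show 0 < ((a : ℂ) * z).im
      rw [Complex.im_ofReal_mul]
      exact mul_pos ha0 hz
    · intro z _ w _ h
      exact mul_left_cancel₀ hac h
  have hU2f : Uni f2 := uni_comp hf hsc
  have hU2g : Uni g2 := uni_comp hsc' hg
  have hf2im : ∀ z ∈ Hp, z.im ≤ (f2 z).im := by
    intro z hz
    have h1 := hf1 (z / a) (hsc.2.1 hz)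
    rw [hsim] at h1
    have e : a * (z.im / a) = z.im := by field_simp
    rw [e] at h1
    exact h1
  have hg2im : ∀ z ∈ Hp, c * z.im ≤ (g2 z).im := by
    intro z hz
    have h1 := hG z hz
    show c * z.im ≤ ((a : ℂ) * g1 z).im
    rw [Complex.im_ofReal_mul, ha]
    nlinarith
  have hfg2 : ∀ z ∈ Hp, f2 (g2 z) = φ z := by
    intro z hz
    show f1 ((a * g1 z) / a) = φ z
    rw [mul_div_cancel_left₀ _ hac]
    exact hfg z hz
  have hsp : ∀ j, ∃ ζ : ℝ, j ≤ n → Jul g2 (x j) ζ (A j) ∧ Jul f2 ζ (x j) (A j) := by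
    intro j
    by_cases hj : j ≤ n
    · obtain ⟨ζ, C1, C2, h1, h2, h12, hg', hf'⟩ :=
        hS f2 g2 φ (x j) (x j) (A j) hU2f.1 hU2g.1 hU2f.2.1 hU2g.2.1 hf2im
          (fun z hz => by
            have h3 := hg2im z hz
            have hz' : 0 < z.im := hz
            nlinarith) hfg2 (hB.jul j hj)
      refine ⟨ζ, fun _ => ⟨jul_mono (fun z hz => (hU2g.2.1 hz).le) hg' ?_,
        jul_mono (fun z hz => (hU2f.2.1 hz).le) hf' ?_⟩⟩ <;> nlinarith
    · exact ⟨0, fun h => absurd h hj⟩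
  choose ζ hζ using hsp
  set t : ℝ := ζ 0 - x 0 with ht
  have htr : Uni (fun z : ℂ => z + t) := by
    refine ⟨(differentiable_id.add_const _).differentiableOn, ?_, ?_⟩
    · intro z hz
      have hz' : 0 < z.im := hz
      show 0 < (z + (t : ℂ)).im
      simpa using hz'
    · intro z _ w _ h
      exact add_right_cancel h
  have htr' : Uni (fun z : ℂ => z - t) := by
    refine ⟨(differentiable_id.sub_const _).differentiableOn, ?_, ?_⟩
    · intro z hz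
      have hz' : 0 < z.im := hz
      show 0 < (z - (t : ℂ)).im
      simpa using hz'
    · intro z _ w _ h
      exact sub_left_injective h
  refine ⟨fun z => f2 (z + t), fun z => g2 z - t, fun j => ζ j - t, ?_, ?_⟩
  · refine ⟨uni_comp hU2f htr, uni_comp htr' hU2g, ?_, ?_, ?_, ?_, ?_, ?_⟩
    · intro z hz
      show f2 (g2 z - t + t) = φ z
      rw [sub_add_cancel]
      exact hfg2 z hz
    · intro z hz
      have h1 := hf2im (z + t) (htr.2.1 hz)
      simpa using h1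
    · intro z hz
      have h1 := hg2im z hz
      show c * z.im ≤ (g2 z - (t : ℂ)).im
      rw [Complex.sub_im, Complex.ofReal_im, sub_zero]
      exact h1
    · show ζ 0 - t = x 0
      rw [ht]; ring
    · intro j hj z hz
      have h1 := (hζ j hj).1 z hz
      have e : (g2 z - t) - ((ζ j - t : ℝ) : ℂ) = g2 z - (ζ j : ℂ) := by push_cast; ring
      show z.im * ‖(g2 z - t) - ((ζ j - t : ℝ) : ℂ)‖ ^ 2
        ≤ A j * (g2 z - (t : ℂ)).im * ‖z - (x j : ℂ)‖ ^ 2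
      rw [e, Complex.sub_im, Complex.ofReal_im, sub_zero]
      exact h1
    · intro j hj z hz
      have h1 := (hζ j hj).2 (z + t) (htr.2.1 hz)
      have e : (z + t) - (ζ j : ℂ) = z - ((ζ j - t : ℝ) : ℂ) := by push_cast; ring
      rw [e, Complex.add_im, Complex.ofReal_im, add_zero] at h1
      exact h1
  · have h1 : (fun z => f2 (z + t)) '' Hp = f2 '' Hp :=
      image_comp_surj htr.2.1 (fun w hw => ⟨w - t, htr'.2.1 hw, by ring⟩)
    have h2 : f2 '' Hp = f1 '' Hp :=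
      image_comp_surj hsc.2.1 (fun w hw => ⟨a * w, hsc'.2.1 hw, mul_div_cancel_left₀ _ hac⟩)
    rw [h1, h2]

lemma norm_le_norm_add_I {w : ℂ} (hw : 0 ≤ w.im) : ‖w‖ ≤ ‖w + I‖ := by
  have h : ‖w‖ ^ 2 ≤ ‖w + I‖ ^ 2 := by
    rw [← Complex.normSq_eq_norm_sq, ← Complex.normSq_eq_norm_sq]
    simp only [Complex.normSq_apply, Complex.add_re, Complex.add_im, Complex.I_re, Complex.I_im]
    nlinarith
  exact le_of_sq_le_sq h (norm_nonneg _)

lemma one_le_norm_add_I {w : ℂ} (hw : 0 ≤ w.im) : 1 ≤ ‖w + I‖ := by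
  have h1 : |(w + I).im| ≤ ‖w + I‖ := Complex.abs_im_le_norm _
  have h2 : (w + I).im = w.im + 1 := by simp
  rw [h2, abs_of_nonneg (by linarith)] at h1
  linarith

lemma im_neg_inv (u : ℂ) : (-u⁻¹).im = u.im / ‖u‖ ^ 2 := by
  rw [Complex.neg_im, Complex.inv_im, Complex.normSq_eq_norm_sq]
  ring

lemma ne_zero_of_mem {v : ℂ} (hv : v ∈ Hp) : v ≠ 0 := by
  rintro rfl
  have : (0 : ℝ) < (0 : ℂ).im := hv
  simp at this

lemma im_neg_inv_pos {v : ℂ} (hv : v ∈ Hp) : 0 < (-v⁻¹).im := by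
  rw [im_neg_inv]
  have h1 : 0 < ‖v‖ := norm_pos_iff.2 (ne_zero_of_mem hv)
  have h2 : 0 < v.im := hv
  positivity

lemma uni_m1 (ξ : ℝ) : Uni (fun v : ℂ => ξ - v⁻¹) := by
  refine ⟨?_, ?_, ?_⟩
  · intro v hv
    exact ((differentiableAt_const _).sub
      (differentiableAt_inv (ne_zero_of_mem hv))).differentiableWithinAt
  · intro v hv
    show 0 < ((ξ : ℂ) - v⁻¹).im
    have h := im_neg_inv_pos hv
    rw [Complex.sub_im, Complex.ofReal_im, zero_sub, ← Complex.neg_im]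
    exact h
  · intro v _ w _ h
    simpa using h

lemma uni_m2 (ξ : ℝ) : Uni (fun w : ℂ => -(w - ξ)⁻¹) := by
  have hm : ∀ w ∈ Hp, w - (ξ : ℂ) ∈ Hp := by
    intro w hw
    have hw' : 0 < w.im := hw
    show 0 < (w - (ξ : ℂ)).im
    simpa using hw'
  refine ⟨?_, ?_, ?_⟩
  · intro w hw
    have h1 : DifferentiableAt ℂ (fun w : ℂ => w - (ξ : ℂ)) w :=
      differentiableAt_id.sub_const _
    exact (h1.inv (ne_zero_of_mem (hm w hw))).neg.differentiableWithinAt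
  · intro w hw
    exact im_neg_inv_pos (hm w hw)
  · intro v _ w _ h
    simpa using h

theorem t (hSP : S_SP) (_hJ : S_JWC) (_hJF : S_JFIN) (hJI : S_JINF) (_hBD : S_JBD)
    (hS : S_SPLIT) : S_R := by
  intro n φ c x A hB F hF hsub
  have hc := hB.one_le
  set G : ℂ → ℂ := fun z => Function.invFunOn F Hp (φ z) with hG
  have hφF : ∀ z ∈ Hp, φ z ∈ F '' Hp := fun z hz => hsub ⟨z, hz, rfl⟩
  have hFG : ∀ z ∈ Hp, F (G z) = φ z := fun z hz =>
    Pool.Agent.Helper202.Univ.invFunOn_right (hφF z hz)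
  have hGM : MapsTo G Hp Hp := fun z hz => Pool.Agent.Helper202.Univ.invFunOn_mem (hφF z hz)
  have hGd : DifferentiableOn ℂ G Hp := by
    intro z hz
    have h1 := Pool.Agent.Helper202.Univ.differentiableAt_inv isOpen_Hp hF.1 hF.2.2 (hφF z hz)
    have h2 := (hB.uni.1.differentiableAt (isOpen_Hp.mem_nhds hz))
    exact (h1.comp z h2).differentiableWithinAt
  have hGi : InjOn G Hp := by
    intro z hz w hw h
    apply hB.uni.2.2 hz hw
    rw [← hFG z hz, ← hFG w hw, h]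
  have hGU : Uni G := ⟨hGd, hGM, hGi⟩
  obtain ⟨K1, hK1, hb1⟩ := d_bound hSP hGd hGM
  obtain ⟨K2, hK2, hb2⟩ := d_bound hSP hF.1 hF.2.1
  set y : ℕ → ℝ := fun k => (k : ℝ) + 1 with hy
  have hy1 : ∀ k, 1 ≤ y k := by
    intro k
    have : (0 : ℝ) ≤ k := Nat.cast_nonneg k
    simp only [hy]; linarith
  have hy0 : ∀ k, 0 < y k := fun k => by linarith [hy1 k]
  have hyt : Tendsto y atTop atTop :=
    tendsto_atTop_add_const_right _ _ tendsto_natCast_atTop_atTop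
  have hmem : ∀ k, ((y k : ℂ) * I) ∈ Hp := by
    intro k
    show 0 < ((y k : ℂ) * I).im
    simpa using hy0 k
  set w : ℕ → ℂ := fun k => G ((y k : ℂ) * I) with hw
  have hwH : ∀ k, w k ∈ Hp := fun k => hGM (hmem k)
  have hwi : ∀ k, 0 < (w k).im := hwH
  have hc1 : ∀ k, ‖w k + I‖ ^ 2 ≤ 4 * K1 * (y k * (w k).im) := by
    intro k
    have h1 := hb1 _ (hmem k)
    have h2 : ((y k : ℂ) * I).im = y k := by simp
    have h3 : ‖(y k : ℂ) * I + I‖ = y k + 1 := by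
      have : (y k : ℂ) * I + I = ((y k + 1 : ℝ) : ℂ) * I := by push_cast; ring
      rw [this, norm_mul, Complex.norm_I, mul_one, Complex.norm_real, Real.norm_eq_abs,
        abs_of_pos (by linarith [hy0 k])]
    rw [h2, h3] at h1
    have h4 : (y k + 1) ^ 2 ≤ (2 * y k) ^ 2 := by
      apply pow_le_pow_left₀ (by linarith [hy0 k])
      linarith [hy1 k]
    have h5 : y k * ‖w k + I‖ ^ 2 ≤ y k * (4 * K1 * (y k * (w k).im)) := by
      calc y k * ‖w k + I‖ ^ 2 ≤ K1 * (w k).im * (y k + 1) ^ 2 := h1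
        _ ≤ K1 * (w k).im * (2 * y k) ^ 2 := by
            apply mul_le_mul_of_nonneg_left h4
            exact mul_nonneg hK1.le (hwi k).le
        _ = y k * (4 * K1 * (y k * (w k).im)) := by ring
    exact le_of_mul_le_mul_left h5 (hy0 k)
  have hc2 : ∀ k, y k * (w k).im ≤ K2 * ‖w k + I‖ ^ 2 := by
    intro k
    have h1 := hb2 _ (hwH k)
    have h2 : F (w k) = φ ((y k : ℂ) * I) := hFG _ (hmem k)
    rw [h2] at h1
    set v := (φ ((y k : ℂ) * I)).im with hv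
    have h3 : y k ≤ v := by
      have h4 := hB.im_ge _ (hmem k)
      have h5 : ((y k : ℂ) * I).im = y k := by simp
      rw [h5] at h4
      nlinarith [hy0 k]
    have hv0 : 0 < v := lt_of_lt_of_le (hy0 k) h3
    have h6 : v ≤ ‖φ ((y k : ℂ) * I) + I‖ := by
      have h7 : |(φ ((y k : ℂ) * I) + I).im| ≤ ‖φ ((y k : ℂ) * I) + I‖ :=
        Complex.abs_im_le_norm _
      have h8 : (φ ((y k : ℂ) * I) + I).im = v + 1 := by simp [hv]
      rw [h8, abs_of_pos (by linarith)] at h7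
      linarith
    have h9 : v * (v * (w k).im) ≤ v * (K2 * ‖w k + I‖ ^ 2) := by
      calc v * (v * (w k).im) = (w k).im * v ^ 2 := by ring
        _ ≤ (w k).im * ‖φ ((y k : ℂ) * I) + I‖ ^ 2 :=
            mul_le_mul_of_nonneg_left (pow_le_pow_left₀ hv0.le h6 2) (hwi k).le
        _ ≤ K2 * v * ‖w k + I‖ ^ 2 := h1
        _ = v * (K2 * ‖w k + I‖ ^ 2) := by ring
    have h10 := le_of_mul_le_mul_left h9 hv0
    have h11 : y k * (w k).im ≤ v * (w k).im := mul_le_mul_of_nonneg_right h3 (hwi k).le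
    linarith
  by_cases hT : Tendsto (fun k => ‖w k‖) atTop atTop
  · refine core hJI hS hB hF hGU hFG y hy0 hyt hT (m := 1 / (4 * K1)) (M := 4 * K2)
      (by positivity) ?_
    filter_upwards [hT.eventually_ge_atTop 1] with k hk
    have hwk0 : 0 < ‖w k‖ := by linarith
    constructor
    · show 1 / (4 * K1) ≤ y k * (w k).im / ‖w k‖ ^ 2
      rw [div_le_div_iff₀ (by positivity) (by positivity)]
      have h1 : ‖w k‖ ^ 2 ≤ ‖w k + I‖ ^ 2 :=
        pow_le_pow_left₀ (norm_nonneg _) (norm_le_norm_add_I (hwi k).le) 2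
      have h2 := hc1 k
      nlinarith
    · show y k * (w k).im / ‖w k‖ ^ 2 ≤ 4 * K2
      rw [div_le_iff₀ (by positivity)]
      have h1 : ‖w k + I‖ ≤ 2 * ‖w k‖ := by
        calc ‖w k + I‖ ≤ ‖w k‖ + ‖(I : ℂ)‖ := norm_add_le _ _
          _ = ‖w k‖ + 1 := by rw [Complex.norm_I]
          _ ≤ 2 * ‖w k‖ := by linarith
      have h2 : ‖w k + I‖ ^ 2 ≤ (2 * ‖w k‖) ^ 2 := pow_le_pow_left₀ (norm_nonneg _) h1 2
      have h3 := hc2 k
      nlinarith
  · -- bounded subsequence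
    rw [Filter.tendsto_atTop] at hT
    push Not at hT
    obtain ⟨b, hb⟩ := hT
    have hfr : ∃ᶠ k in atTop, w k ∈ ball (0 : ℂ) b := by
      refine hb.mono (fun k hk => ?_)
      rw [mem_ball_zero_iff]
      exact hk
    obtain ⟨p, -, ψ, hψ, hψl⟩ := tendsto_subseq_of_frequently_bounded isBounded_ball hfr
    have hyψ : Tendsto (fun k => y (ψ k)) atTop atTop := hyt.comp hψ.tendsto_atTop
    have hI2 : Tendsto (fun k => K2 * ‖w (ψ k) + I‖ ^ 2) atTop (𝓝 (K2 * ‖p + I‖ ^ 2)) :=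
      (((hψl.add_const I).norm).pow 2).const_mul _
    have him : Tendsto (fun k => (w (ψ k)).im) atTop (𝓝 p.im) :=
      (Complex.continuous_im.tendsto _).comp hψl
    have hp0 : p.im = 0 := by
      apply le_antisymm
      · refine le_of_tendsto_of_tendsto him (hI2.div_atTop hyψ) (Eventually.of_forall fun k => ?_)
        show (w (ψ k)).im ≤ K2 * ‖w (ψ k) + I‖ ^ 2 / y (ψ k)
        rw [le_div_iff₀ (hy0 _), mul_comm]
        exact hc2 _
      · exact ge_of_tendsto him (Eventually.of_forall fun k => (hwi _).le)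
    set ξ : ℝ := p.re with hξ
    have hpξ : p = (ξ : ℂ) := by
      apply Complex.ext <;> simp [hξ, hp0]
    have hm1 := uni_m1 ξ
    have hm2 := uni_m2 ξ
    have hne : ∀ z ∈ Hp, z - (ξ : ℂ) ≠ 0 := by
      intro z hz h
      have h1 : (z - (ξ : ℂ)).im = 0 := by rw [h]; simp
      have h2 : 0 < z.im := hz
      simp at h1
      linarith
    have hu : ∀ k, w (ψ k) - (ξ : ℂ) ≠ 0 := fun k => hne _ (hwH _)
    have hcomp : ∀ z ∈ Hp, F ((ξ : ℂ) - (-(G z - (ξ : ℂ))⁻¹)⁻¹) = φ z := by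
      intro z hz
      have e : (ξ : ℂ) - (-(G z - (ξ : ℂ))⁻¹)⁻¹ = G z := by
        rw [inv_neg, inv_inv]; ring
      rw [e]; exact hFG z hz
    have hu0 : Tendsto (fun k => ‖w (ψ k) - (ξ : ℂ)‖) atTop (𝓝[>] 0) := by
      rw [tendsto_nhdsWithin_iff]
      refine ⟨?_, Eventually.of_forall fun k => norm_pos_iff.2 (hu k)⟩
      have h1 : Tendsto (fun k => ‖w (ψ k) - (ξ : ℂ)‖) atTop (𝓝 ‖p - (ξ : ℂ)‖) :=
        (hψl.sub_const _).norm
      rw [hpξ, sub_self, norm_zero] at h1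
      exact h1
    obtain ⟨f, g, ζ, hD, him'⟩ := core hJI hS hB (f1 := fun v => F ((ξ : ℂ) - v⁻¹))
      (g1 := fun z => -(G z - (ξ : ℂ))⁻¹) (uni_comp hF hm1)
      (uni_comp (F := fun w : ℂ => -(w - (ξ : ℂ))⁻¹) (m := G) hm2 hGU) hcomp
      (fun k => y (ψ k)) (fun k => hy0 _) hyψ
      (by
        have h1 := hu0.inv_tendsto_nhdsGT_zero
        refine h1.congr (fun k => ?_)
        simp only [Pi.inv_apply]
        rw [norm_neg, norm_inv])
      (m := 1 / (4 * K1)) (M := K2 * ‖p + I‖ ^ 2 + 1) (by positivity)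
      (by
        filter_upwards [hI2.eventually_le_const (show K2 * ‖p + I‖ ^ 2 < K2 * ‖p + I‖ ^ 2 + 1 by
          linarith)] with k hk
        have e : y (ψ k) * (-(G ((y (ψ k) : ℂ) * I) - (ξ : ℂ))⁻¹).im /
            ‖-(G ((y (ψ k) : ℂ) * I) - (ξ : ℂ))⁻¹‖ ^ 2 = y (ψ k) * (w (ψ k)).im := by
          have h1 : G ((y (ψ k) : ℂ) * I) = w (ψ k) := rfl
          rw [h1, im_neg_inv, norm_neg, norm_inv]
          have h2 : ‖w (ψ k) - (ξ : ℂ)‖ ≠ 0 := norm_ne_zero_iff.2 (hu k)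
          have h3 : (w (ψ k) - (ξ : ℂ)).im = (w (ψ k)).im := by simp
          rw [h3]
          field_simp
        rw [e]
        constructor
        · rw [div_le_iff₀ (by positivity)]
          have h1 : (1 : ℝ) ≤ ‖w (ψ k) + I‖ ^ 2 := one_le_pow₀ (one_le_norm_add_I (hwi _).le)
          have h2 := hc1 (ψ k)
          nlinarith
        · exact (hc2 _).trans hk)
    refine ⟨f, g, ζ, hD, ?_⟩
    rw [him']
    exact image_comp_surj hm1.2.1 (fun v hv => ⟨-(v - (ξ : ℂ))⁻¹, hm2.2.1 hv, by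
      show (ξ : ℂ) - (-(v - (ξ : ℂ))⁻¹)⁻¹ = v
      rw [inv_neg, inv_inv]; ring⟩)

end Pool.Agent.Y367.LW.R
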